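import Mathlib
import Pool.Agent.W_e21d3a_h93.Bridge
import Pool.Agent.W_e21d3a_h93.G2
import Pool.Agent.W_e21d3a_h93.G3c

set_option autoImplicit false

/-!
# MP_e21d3a_lc : natural densities of the invariant sets of the Collatz map

Every set of positive integers which is invariant under the Collatz map `f` (`n ∈ S ↔ f(n) ∈ S`), in particular
the set `A` of the problem, has a natural density, and the natural density is countably additive on the invariant
sets. If the invariant set `S` is computable, then its density is a computable real number; if `S` is c.e., as `A` is,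
the density is a left-c.e. real number.

Proof: Pool/Agent/W_e21d3a_h93 (transfer theorem for the first passage below `x`, renewal theory for the
number of halvings) and, for the additivity, Pool/Agent/W_e21c_h6 (almost all orbits reach a bounded set).
-/

namespace Pool.Agent.Results.MP_e21d3a_lc.InvariantDensity

/-- the Collatz map -/
def col (m : ℕ) : ℕ := if m % 2 = 0 then m / 2 else 3 * m + 1

/-- the set of positive integers whose trajectory reaches 1 -/
def A : Set ℕ := {n | 0 < n ∧ ∃ k : ℕ, col^[k] n = 1}

/-- for `n > 0`: `n ∈ S` if and only if `f(n) ∈ S` -/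
def Invariant (S : Set ℕ) : Prop := ∀ n, 0 < n → (n ∈ S ↔ col n ∈ S)

/-- the part of `S` in the positive integers has the natural density `s` -/
def HasDensity (S : Set ℕ) (s : ℝ) : Prop :=
  Filter.Tendsto (fun X : ℕ => (Nat.card {n : ℕ // 1 ≤ n ∧ n ≤ X ∧ n ∈ S} : ℝ) / X) Filter.atTop (nhds s)

/-- `x ≥ 0` is a computable real number: some computable `q` has `|x - q(n)/(n+1)| ≤ 1/(n+1)` for all `n` -/
def ComputableReal (x : ℝ) : Prop := ∃ q : ℕ → ℕ, Computable q ∧ ∀ n : ℕ, |x * (n + 1) - q n| ≤ 1

/-- `x ≥ 0` is a left-c.e. real number: the supremum of a computable sequence of rational numbers -/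
def LeftCE (x : ℝ) : Prop :=
  ∃ q : ℕ → ℕ, Computable q ∧ IsLUB (Set.range fun k : ℕ => (q k : ℝ) / (k + 1)) x

theorem A_invariant : Invariant A := by
  intro n hn
  constructor
  · rintro ⟨_, k, hk⟩
    refine ⟨?_, ?_⟩
    · unfold col; split <;> omega
    · cases k with
      | zero =>
        have : n = 1 := hk
        subst this
        exact ⟨2, by decide⟩
      | succ k => exact ⟨k, hk⟩
  · rintro ⟨_, k, hk⟩
    exact ⟨hn, k + 1, hk⟩

theorem col_primrec : Primrec col := by
  refine Primrec.ite ?_ ?_ ?_
  · exact Primrec.eq.comp (Primrec.nat_mod.comp Primrec.id (Primrec.const 2)) (Primrec.const 0)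
  · exact Primrec.nat_div.comp Primrec.id (Primrec.const 2)
  · exact Primrec.nat_add.comp (Primrec.nat_mul.comp (Primrec.const 3) Primrec.id) (Primrec.const 1)

theorem A_re : REPred (fun n => n ∈ A) := by
  have h1 : Primrec₂ (fun n k : ℕ => decide (col^[k] n = 1)) := by
    have h2 : Primrec (fun q : ℕ × ℕ => col^[q.2] q.1) :=
      Primrec.nat_iterate Primrec.snd Primrec.fst (col_primrec.comp Primrec.snd).to₂
    exact (Primrec.eq.comp h2 (Primrec.const 1)).decide
  have h3 : Partrec fun n : ℕ => Nat.rfind fun k => (Part.some (decide (col^[k] n = 1)) : Part Bool) :=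
    Partrec.rfind (p := fun n k : ℕ => (Part.some (decide (col^[k] n = 1)) : Part Bool)) h1.to_comp
  refine h3.dom_re.of_eq fun n => Nat.rfind_dom.trans ?_
  constructor
  · rintro ⟨k, hk, _⟩
    have hk' : col^[k] n = 1 := by simpa using hk
    refine ⟨?_, k, hk'⟩
    rcases Nat.eq_zero_or_pos n with h0 | h0
    · subst h0
      exfalso
      have : ∀ j, col^[j] 0 = 0 := by
        intro j
        induction j with
        | zero => rfl
        | succ j ih => rw [Function.iterate_succ_apply, show col 0 = 0 from rfl, ih]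
      rw [this] at hk'
      exact absurd hk' (by norm_num)
    · exact h0
  · rintro ⟨_, k, hk⟩
    exact ⟨k, by simpa using hk, fun _ => trivial⟩

theorem dens_iff (S : Set ℕ) (s : ℝ) [DecidablePred fun n => n ∈ S] : HasDensity S s ↔
    Filter.Tendsto (fun X : ℕ => (((Finset.Icc 1 X).filter (fun n => n ∈ S)).card : ℝ) / X)
      Filter.atTop (nhds s) := by
  unfold HasDensity
  simp only [W_e21d3a_h93.card_Icc_filter]

theorem result : ∃ d : Set ℕ → ℝ,
    (∀ S : Set ℕ, Invariant S → HasDensity S (d S)) ∧
    (∀ S : ℕ → Set ℕ, (∀ i, Invariant (S i)) → (∀ i j, i ≠ j → ∀ n, 0 < n → n ∈ S i → n ∉ S j) →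
      HasSum (fun i => d (S i)) (d (⋃ i, S i))) ∧
    (∀ S : Set ℕ, Invariant S → ComputablePred (fun n => n ∈ S) → ComputableReal (d S)) ∧
    (∀ S : Set ℕ, Invariant S → REPred (fun n => n ∈ S) → LeftCE (d S)) ∧
    Invariant A ∧ REPred (fun n => n ∈ A) := by
  classical
  obtain ⟨Cm, hC1, hC2⟩ := W_e21d3a_h93.Mix
  have hmix : E21.Mix Cm := ⟨hC1, hC2⟩
  have h3 : ∀ S : Set ℕ, ∃ s : ℝ, Invariant S → HasDensity S s := by
    intro S
    by_cases hS : Invariant S
    · obtain ⟨s, hs⟩ := W_e21d3a_h93.theorem3 S hS
      exact ⟨s, fun _ => (dens_iff S s).2 hs⟩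
    · exact ⟨0, fun h => absurd h hS⟩
  choose d hd using h3
  refine ⟨d, hd, ?_, ?_, ?_, A_invariant, ?_⟩
  · intro S hS hdis
    refine W_e21d3a_h93.density_iUnion hmix S hS hdis (fun i => d (S i))
      (fun i => (dens_iff _ _).1 (hd _ (hS i))) _ ((dens_iff _ _).1 (hd _ ?_))
    intro n hn
    simp only [Set.mem_iUnion]
    exact exists_congr fun i => hS i n hn
  · intro S hS hc
    exact W_e21d3a_h93.density_computable S hS hc (d S) (hd S hS)
  · intro S hS hc
    exact W_e21d3a_h93.density_left_ce S hS hc (d S) (hd S hS)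
  · exact A_re

end Pool.Agent.Results.MP_e21d3a_lc.InvariantDensity
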